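import Mathlib
import Pool.Agent.R762.Bus3

/-! MP_b19ca0_gt (Q1): the disc with the metric Hilbert plus taxicab does not have non-positive
curvature in the sense of Busemann. -/

set_option autoImplicit false

namespace Pool.Agent.Results.MP_b19ca0_gt.NotBusemann

open Real Set Topology

/-- `h` is the Hilbert metric of the open unit disc of the plane `ℂ`, without a factor `1/2`:
`h x x = 0`, and for `x ≠ y` it is the absolute value of the logarithm of the cross ratio with the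
two points `a`, `b` in which the line through `x` and `y` meets the unit circle. -/
structure IsHilbert (h : ℂ → ℂ → ℝ) : Prop where
  self : ∀ x : ℂ, ‖x‖ < 1 → h x x = 0
  cross : ∀ x y a b : ℂ, ‖x‖ < 1 → ‖y‖ < 1 → x ≠ y → ‖a‖ = 1 → ‖b‖ = 1 → a ≠ b →
    a ∈ line[ℝ, x, y] → b ∈ line[ℝ, x, y] →
    h x y = |log ((dist x a * dist y b) / (dist x b * dist y a))|

/-- the metric `h + m` with the taxicab metric `m` -/
noncomputable def d (h : ℂ → ℂ → ℝ) (x y : ℂ) : ℝ := h x y + (|x.re - y.re| + |x.im - y.im|)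

/-- `p` is the midpoint of the segment from `x` to `y`: the unique point of it with
`d x p = d p y` -/
def IsMidpoint (d : ℂ → ℂ → ℝ) (x y p : ℂ) : Prop :=
  p ∈ segment ℝ x y ∧ d x p = d p y ∧ ∀ p' ∈ segment ℝ x y, d x p' = d p' y → p' = p

/-- non-positive curvature in the sense of Busemann of the open unit disc with the metric `d` -/
def NonPositivelyCurved (d : ℂ → ℂ → ℝ) : Prop :=
  ∀ x₀ : ℂ, ‖x₀‖ < 1 → ∃ U ∈ 𝓝 x₀, ∀ x ∈ U, ∀ y ∈ U, ∀ z ∈ U, ‖x‖ < 1 → ‖y‖ < 1 → ‖z‖ < 1 →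
    ∀ p q : ℂ, IsMidpoint d x y p → IsMidpoint d x z q → 2 * d p q ≤ d y z

/-- **The curvature is not non-positive.** -/
theorem result :
    (∃ h, IsHilbert h) ∧ ∀ h, IsHilbert h →
      (∀ ε > 0, ∃ y z p q : ℂ, ‖y‖ < 1 ∧ ‖z‖ < 1 ∧ ‖y - 1 / 2‖ < ε ∧ ‖z - 1 / 2‖ < ε ∧
        d h (1 / 2) y < ε ∧ d h (1 / 2) z < ε ∧ IsMidpoint (d h) (1 / 2) y p ∧
        IsMidpoint (d h) (1 / 2) z q ∧ d h y z < 2 * d h p q) ∧
      ¬ NonPositivelyCurved (d h) := by
  constructor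
  · obtain ⟨h, h1, h2⟩ := Pool.Agent.R762.Bus.exists_hilbert
    exact ⟨h, h1, h2⟩
  intro h hh
  obtain ⟨hn, hmain⟩ := Pool.Agent.R762.Bus.main (h := h) ⟨hh.self, hh.cross⟩
  refine ⟨hmain, fun hcon => ?_⟩
  obtain ⟨U, hU, hall⟩ := hcon (1 / 2) hn
  obtain ⟨ε, hε, hball⟩ := Metric.mem_nhds_iff.1 hU
  obtain ⟨y, z, p, q, hy, hz, hy2, hz2, -, -, hp, hq, hlt⟩ := hmain ε hε
  have key := hall (1 / 2) (hball (Metric.mem_ball_self hε)) y
    (hball (by rw [Metric.mem_ball, dist_eq_norm]; exact hy2)) z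
    (hball (by rw [Metric.mem_ball, dist_eq_norm]; exact hz2)) hn hy hz p q hp hq
  exact absurd hlt (not_lt.2 key)

end Pool.Agent.Results.MP_b19ca0_gt.NotBusemann
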